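import Pool.Agent.Helper79.AL.St2
import Pool.Agent.Helper94.YF.M_RAT

/-! # Project AL (MP_2b6189_al), module NAJ: not adjacent -/

set_option autoImplicit false

namespace Pool.Agent.Helper7.AL

open Matrix ComplexConjugate Pool.Agent.Helper94.YG
open Pool.Agent.Helper94.YF hiding StORB
open Pool.Agent.Helper89.OS Pool.Agent.Helper89.OC Pool.Agent.Helper79.AL

theorem mulVec_ev {I : Type} [Fintype I] [DecidableEq I] (M : Matrix I I ℂ) (j k : I) :
    (M *ᵥ ev j) k = M k j := by
  unfold Matrix.mulVec dotProduct ev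
  rw [Finset.sum_eq_single j]
  · simp
  · intro l _ hl
    simp [hl]
  · intro h
    exact absurd (Finset.mem_univ j) h

theorem hNAJ : StNAJ := by
  intro hFCA hFCB hGLA hLKN I _ _ Z q b b' X' hL hb hbb hadj j hj
  have FA : FCA Z := hFCA I Z
  have FB : FCB Z := hFCB hFCA I Z
  have GA : GLA Z := hGLA I Z
  have hb' : b' * b' = b' := hL.idp.idem
  have hF : Fx Z b' (ev j) := by
    refine FB.of b' (ev j) hb' ?_ ?_
    · intro k hk
      have hkj : k = j := by
        by_contra hne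
        exact hk (by simp [ev, hne])
      rw [hkj]
      exact hadj j hj
    · intro k hk
      rw [mulVec_ev] at hk
      have h1 := FA.supp b b' hb hb' hbb k j hk
      apply hadj k
      rw [h1]
      exact hj
  refine ⟨hF, ?_⟩
  obtain ⟨_, _, zz, hzi, _, _, hS⟩ := hLKN I Z q b' X' hL
  have hcol : ∀ l, X'.s l j = (q : ℂ) * (if l = j then 1 else 0) := by
    intro l
    have h1 := congrFun hF.1 l
    rw [mulVec_ev] at h1
    have h2 : X'.s l j = (q : ℂ) * Z.rho (s2 b') l j := by rw [hL.s]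
    rw [h2, h1]
    rfl
  have hd : (Z.d j : ℂ) = zz Z.o j * q := by
    have h1 := hS Z.o j
    rw [GA.Sf_symm, GA.Sf_o] at h1
    rw [h1, Finset.sum_eq_single j]
    · rw [hcol j]
      simp
    · intro l _ hl
      rw [hcol l]
      simp [hl]
    · intro h
      exact absurd (Finset.mem_univ j) h
  have hq0 : (q : ℂ) ≠ 0 := by
    exact_mod_cast X'.prime.ne_zero
  have hq0' : (q : ℚ) ≠ 0 := by
    exact_mod_cast X'.prime.ne_zero
  have hint : IsIntegral ℤ ((((Z.d j : ℚ) / q : ℚ)) : ℂ) := by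
    have h1 : ((((Z.d j : ℚ) / q : ℚ)) : ℂ) = zz Z.o j := by
      push_cast
      rw [hd]
      field_simp
    rw [h1]
    exact hzi _ _
  obtain ⟨m, hm⟩ := Pool.Agent.Helper94.YF.hRAT'.2 _ hint
  have h3 : ((Z.d j : ℤ) : ℚ) = (((q : ℤ) * m : ℤ) : ℚ) := by
    push_cast
    rw [hm]
    field_simp
  have h4 : (Z.d j : ℤ) = (q : ℤ) * m := by exact_mod_cast h3
  have h5 : (q : ℤ) ∣ (Z.d j : ℤ) := ⟨m, h4⟩
  exact_mod_cast h5

end Pool.Agent.Helper7.AL
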